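import Pool.Agent.Y485.HS.Stm

/-!
Project HS, job HSS-SYL: a closed subgroup of a profinite group which contains all closed pro-`p`
subgroups, for all primes `p`, is everything.
-/

set_option autoImplicit false

open Set Filter Topology Function MulAction

namespace Pool.Agent.Y215.HS

open Pool.Agent.Y485.HS

section
variable {H : Type} [Group H] [TopologicalSpace H] [IsTopologicalGroup H] [CompactSpace H]
    [T2Space H] [TotallyDisconnectedSpace H]

omit [T2Space H] in
/-- The closure of the powers of `g` is pro-`p` when `g` is a `p`-element modulo all open normal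
subgroups. -/
theorem proP_closure (p : ℕ) (hp : p.Prime) (g : H)
    (hg : ∀ V : OpenNormalSubgroup H, ∃ a : ℕ, g ^ p ^ a ∈ V) (P : Subgroup H)
    (hP : P = (Subgroup.zpowers g).topologicalClosure) : ProP p P := by
  intro U hU
  have hgP : g ∈ P := by
    rw [hP]
    exact subset_closure (Subgroup.mem_zpowers g)
  set g' : P := ⟨g, hgP⟩ with hg'
  obtain ⟨W, hW, hWU⟩ := isOpen_induced_iff.1 hU
  have h1W : (1 : H) ∈ W := by
    have : (1 : P) ∈ (U : Set P) := U.one_mem
    rw [← hWU] at this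
    exact this
  obtain ⟨V, hV⟩ := ProfiniteGrp.exist_openNormalSubgroup_sub_open_nhds_of_one hW h1W
  obtain ⟨a, ha⟩ := hg V
  have hgU : g' ^ p ^ a ∈ U := by
    have : (g' ^ p ^ a : P) ∈ (U : Set P) := by
      rw [← hWU]
      exact hV ha
    exact this
  -- the action of `g` on the cosets is transitive
  have htr : ∀ x : P, ∃ k : ℤ, (g' ^ k)⁻¹ * x ∈ U := by
    intro x
    have hx : (x : H) ∈ closure ((Subgroup.zpowers g : Subgroup H) : Set H) := by
      have h2 := x.2
      have h3 : (x : H) ∈ (Subgroup.zpowers g).topologicalClosure := hP ▸ h2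
      exact h3
    have hop : IsOpen {y : H | y⁻¹ * (x : H) ∈ W} := hW.preimage (by fun_prop)
    have hmem : (x : H) ∈ {y : H | y⁻¹ * (x : H) ∈ W} := by simpa using h1W
    obtain ⟨y, hy, k, hk⟩ := mem_closure_iff.1 hx _ hop hmem
    refine ⟨k, ?_⟩
    have : ((g' ^ k)⁻¹ * x : P) ∈ (U : Set P) := by
      rw [← hWU]
      simp only [mem_preimage, Subgroup.coe_mul, Subgroup.coe_inv, Subgroup.coe_zpow]
      change g ^ k = y at hk
      rw [hg']
      simp only
      rw [hk]
      exact hy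
    exact this
  have horb : orbit (Subgroup.zpowers g') ((1 : P) : P ⧸ U) = univ := by
    rw [eq_univ_iff_forall]
    intro q
    obtain ⟨x, rfl⟩ := QuotientGroup.mk_surjective q
    obtain ⟨k, hk⟩ := htr x
    refine ⟨⟨g' ^ k, k, rfl⟩, ?_⟩
    change ((g' ^ k * 1 : P) : P ⧸ U) = (x : P ⧸ U)
    rw [mul_one]
    exact QuotientGroup.eq.2 hk
  have hcard : U.index = minimalPeriod (fun q : P ⧸ U => g' • q) ((1 : P) : P ⧸ U) := by
    have h1 := Nat.card_congr (orbitZPowersEquiv g' ((1 : P) : P ⧸ U))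
    rw [Nat.card_zmod] at h1
    have h2 : Nat.card (orbit (Subgroup.zpowers g') ((1 : P) : P ⧸ U)) = Nat.card (P ⧸ U) := by
      have h3 := congrArg (fun s : Set (P ⧸ U) => Nat.card s) horb
      exact h3.trans (Nat.card_congr (Equiv.Set.univ _))
    rw [Subgroup.index, ← h2]
    exact h1
  have hper : IsPeriodicPt (fun q : P ⧸ U => g' • q) (p ^ a) ((1 : P) : P ⧸ U) := by
    change (fun q : P ⧸ U => g' • q)^[p ^ a] ((1 : P) : P ⧸ U) = _
    rw [smul_iterate]
    change ((g' ^ p ^ a * 1 : P) : P ⧸ U) = ((1 : P) : P ⧸ U)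
    rw [mul_one]
    exact QuotientGroup.eq.2 (by simpa using U.inv_mem hgU)
  have hdvd := hper.minimalPeriod_dvd
  rw [← hcard] at hdvd
  obtain ⟨j, -, hj⟩ := (Nat.dvd_prime_pow hp).1 hdvd
  exact ⟨j, hj⟩

omit [T2Space H] [TotallyDisconnectedSpace H] in
/-- For every `h` and every prime `p` there is a `p`-element `g` of the closure of the powers of
`h` which is a limit of powers of `h` with exponent prime to `p`. -/
theorem exists_p_part (p : ℕ) (hp : p.Prime) (h : H) :
    ∃ g : H, (∀ V : OpenNormalSubgroup H, ∃ a : ℕ, g ^ p ^ a ∈ V) ∧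
      ∀ V : OpenNormalSubgroup H, ∃ e : ℕ, ¬ p ∣ e ∧ g⁻¹ * h ^ e ∈ V := by
  obtain ⟨g, -, hg⟩ := (isCompact_univ (X := H)).exists_mapClusterPt_of_frequently
    (l := atTop) (f := fun j : ℕ => h ^ (ordCompl[p] (Nat.factorial j)))
    (Frequently.of_forall fun _ => mem_univ _)
  have key : ∀ V : OpenNormalSubgroup H, ∀ N : ℕ, ∃ j ≥ N,
      g⁻¹ * h ^ (ordCompl[p] (Nat.factorial j)) ∈ V := by
    intro V N
    have hmem : {y : H | g⁻¹ * y ∈ V} ∈ 𝓝 g := by
      refine IsOpen.mem_nhds ?_ ?_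
      · exact V.isOpen'.preimage (by fun_prop)
      · simp only [mem_ofPred_eq, inv_mul_cancel]
        exact one_mem V
    obtain ⟨j, hj, hj2⟩ := (frequently_atTop.1 (hg.frequently hmem)) N
    exact ⟨j, hj, hj2⟩
  refine ⟨g, fun V => ?_, fun V => ?_⟩
  · -- the order of `h` modulo `V`
    obtain ⟨r, hr, hrV⟩ : ∃ r : ℕ, 0 < r ∧ h ^ r ∈ V.toSubgroup := by
      have : Finite (H ⧸ V.toSubgroup) := V.toSubgroup.quotient_finite_of_isOpen V.isOpen'
      have : V.toSubgroup.FiniteIndex := ⟨by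
        rw [Subgroup.index]; exact Nat.card_pos.ne'⟩
      exact ⟨V.toSubgroup.index, Nat.pos_of_ne_zero Subgroup.FiniteIndex.index_ne_zero,
        V.toSubgroup.pow_index_mem h⟩
    obtain ⟨j, hj, hjV⟩ := key V (ordCompl[p] r)
    refine ⟨r.factorization p, ?_⟩
    set e := ordCompl[p] (Nat.factorial j) with he
    have hbe : ordCompl[p] r ∣ e := by
      have h1 : ordCompl[p] r ∣ Nat.factorial j :=
        Nat.dvd_factorial (Nat.ordCompl_pos p hr.ne') hj
      have h2 : (ordCompl[p] r).Coprime (ordProj[p] (Nat.factorial j)) :=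
        (Nat.coprime_ordCompl hp hr.ne').symm.pow_right _
      rw [← Nat.ordProj_mul_ordCompl_eq_self (Nat.factorial j) p] at h1
      exact h2.dvd_of_dvd_mul_left h1
    have h3 : h ^ (e * p ^ r.factorization p) ∈ V.toSubgroup := by
      obtain ⟨c, hc⟩ := hbe
      have : e * p ^ r.factorization p = r * c := by
        rw [hc]
        nth_rewrite 4 [← Nat.ordProj_mul_ordCompl_eq_self r p]
        ring
      rw [this, pow_mul]
      exact Subgroup.pow_mem _ hrV c
    have h4 : ((g : H) : H ⧸ V.toSubgroup) = ((h ^ e : H) : H ⧸ V.toSubgroup) :=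
      QuotientGroup.eq.2 hjV
    have h5 : ((g ^ p ^ r.factorization p : H) : H ⧸ V.toSubgroup) = 1 := by
      rw [QuotientGroup.mk_pow, h4, ← QuotientGroup.mk_pow, ← pow_mul]
      exact (QuotientGroup.eq_one_iff _).2 h3
    exact (QuotientGroup.eq_one_iff _).1 h5
  · obtain ⟨j, -, hj⟩ := key V 0
    exact ⟨_, Nat.not_dvd_ordCompl hp (Nat.factorial_ne_zero j), hj⟩

end

/-- Job J16. -/
theorem syl : S_SYL := by
  intro H _ _ _ _ _ _ D hD hP
  rw [eq_top_iff]
  rintro h -
  by_contra hh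
  have hop : IsOpen {x : H | h * x ∉ D} := by
    have : IsOpen ((D : Set H)ᶜ) := hD.isOpen_compl
    exact this.preimage (f := fun x : H => h * x) (by fun_prop)
  have h1 : (1 : H) ∈ {x : H | h * x ∉ D} := by simpa using hh
  obtain ⟨V, hV⟩ := ProfiniteGrp.exist_openNormalSubgroup_sub_open_nhds_of_one hop h1
  set K : Subgroup H := D ⊔ V.toSubgroup with hK
  have hVK : V.toSubgroup ≤ K := le_sup_right
  have hDK : D ≤ K := le_sup_left
  have hprime : ∀ p : ℕ, p.Prime → ∃ e : ℕ, ¬ p ∣ e ∧ h ^ e ∈ K := by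
    intro p hp
    obtain ⟨g, hg1, hg2⟩ := exists_p_part p hp h
    have hgD : g ∈ D := by
      have hle := hP p hp _ (Subgroup.isClosed_topologicalClosure _)
        (proP_closure p hp g hg1 _ rfl)
      exact hle (subset_closure (Subgroup.mem_zpowers g))
    obtain ⟨e, he, hge⟩ := hg2 V
    refine ⟨e, he, ?_⟩
    have : h ^ e = g * (g⁻¹ * h ^ e) := by group
    rw [this]
    exact K.mul_mem (hDK hgD) (hVK hge)
  -- the least positive exponent
  have hex : ∃ e : ℕ, 0 < e ∧ h ^ e ∈ K := by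
    obtain ⟨e, he, heK⟩ := hprime 2 Nat.prime_two
    refine ⟨e, Nat.pos_of_ne_zero ?_, heK⟩
    rintro rfl
    exact he (dvd_zero 2)
  classical
  obtain ⟨he0, heK⟩ := Nat.find_spec hex
  set e := Nat.find hex with hedef
  have he1 : e = 1 := by
    by_contra hne
    obtain ⟨p, hp, hpe⟩ := Nat.exists_prime_and_dvd hne
    obtain ⟨f, hf, hfK⟩ := hprime p hp
    have hgK : h ^ (Nat.gcd e f) ∈ K := by
      have : (h ^ (Nat.gcd e f) : H) = (h ^ e) ^ (Nat.gcdA e f) * (h ^ f) ^ (Nat.gcdB e f) := by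
        rw [← zpow_natCast, Nat.gcd_eq_gcd_ab, zpow_add, zpow_mul, zpow_mul, zpow_natCast,
          zpow_natCast]
      rw [this]
      exact K.mul_mem (K.zpow_mem heK _) (K.zpow_mem hfK _)
    have hpos : 0 < Nat.gcd e f := Nat.gcd_pos_of_pos_left _ he0
    have hlt : Nat.gcd e f < e := by
      refine lt_of_le_of_ne (Nat.gcd_le_left _ he0) ?_
      intro heq
      exact hf ((hpe.trans (heq.symm.dvd : e ∣ Nat.gcd e f)).trans (Nat.gcd_dvd_right e f))
    exact Nat.find_min hex hlt ⟨hpos, hgK⟩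
  rw [he1, pow_one] at heK
  rw [hK] at heK
  have : V.toSubgroup.Normal := V.isNormal'
  obtain ⟨d, hd, v, hv, hdv⟩ := Subgroup.mem_sup_of_normal_right.1 heK
  have hv' : v⁻¹ ∈ V := inv_mem hv
  have := hV hv'
  apply this
  rw [← hdv]
  simpa using hd

end Pool.Agent.Y215.HS
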